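import Mathlib
import Pool.Agent.Results.MP_658336_nt.Progressions

set_option autoImplicit false

namespace Pool.Agent.Results.MP_1ea053_nt.SmallGaps

open Nat Pool.Agent.Results.MP_658336_nt

theorem two_min (A : Finset ℕ) (hA : ∀ a ∈ A, 0 < a) (hsum : (∑ n ∈ A, (1 : ℚ) / (n : ℚ)) = 1)
    (N : ℕ) (hN : ∀ a ∈ A, a ≤ N) : ∃ a ∈ A, 2 * a ≤ N + 1 := by
  have hne : A.Nonempty := by
    rw [Finset.nonempty_iff_ne_empty]
    rintro rfl
    simp at hsum
  set a₁ := A.min' hne with ha₁
  have ha₁A : a₁ ∈ A := A.min'_mem hne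
  have ha₁0 : (0 : ℚ) < (a₁ : ℚ) := by exact_mod_cast hA _ ha₁A
  refine ⟨a₁, ha₁A, ?_⟩
  have h2 : (∑ n ∈ A, (1 : ℚ) / (n : ℚ)) ≤ A.card • (1 / (a₁ : ℚ)) := by
    apply Finset.sum_le_card_nsmul
    intro n hn
    apply one_div_le_one_div_of_le ha₁0
    exact_mod_cast A.min'_le n hn
  rw [hsum, nsmul_eq_mul, mul_one_div, le_div_iff₀ ha₁0, one_mul] at h2
  have h3 : a₁ ≤ A.card := by exact_mod_cast h2
  have h4 : A.card ≤ (Finset.Icc a₁ N).card := by
    apply Finset.card_le_card
    intro a ha
    exact Finset.mem_Icc.2 ⟨A.min'_le a ha, hN a ha⟩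
  rw [Nat.card_Icc] at h4
  have := hN _ ha₁A
  omega

theorem no_pair (A : Finset ℕ) (hA : ∀ a ∈ A, 0 < a) (hsum : (∑ n ∈ A, (1 : ℚ) / (n : ℚ)) = 1)
    (hgap : ∀ x ∈ A, ∀ y ∈ A, x < y → (∀ z ∈ A, ¬ (x < z ∧ z < y)) → y - x ≤ 2)
    (N : ℕ) (hNA : N ∈ A) (hN : ∀ a ∈ A, a ≤ N) (m n p q : ℕ) (hp : p.Prime) (hq : q.Prime)
    (hpm : m * m ! < p) (hqm : m * m ! < q) (hNp : N < m * p) (hNq : N < m * q)
    (hpn : p ∣ n) (hqn : q ∣ n + 1) (hn : ∃ a ∈ A, a ≤ n) (hnN : n ≤ N) : False := by
  have hs : (∑ n ∈ A, (1 : ℚ) / (n : ℚ)) = ((1 : ℤ) : ℚ) := by rw [hsum]; norm_num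
  have h1 : n ∉ A := fun h => Progressions.key m A hA 1 hs p hp hpm
    (fun a ha => lt_of_le_of_lt (hN a ha) hNp) n h hpn
  have h2 : n + 1 ∉ A := fun h => Progressions.key m A hA 1 hs q hq hqm
    (fun a ha => lt_of_le_of_lt (hN a ha) hNq) (n + 1) h hqn
  obtain ⟨a, haA, han⟩ := hn
  have hN2 : n < N := by
    rcases Nat.lt_or_ge n N with h | h
    · exact h
    · exact absurd (by rwa [show N = n by omega] at hNA) h1
  have hlow : (A.filter (fun a => a ≤ n)).Nonempty := ⟨a, Finset.mem_filter.2 ⟨haA, han⟩⟩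
  have hup : (A.filter (fun a => n < a)).Nonempty := ⟨N, Finset.mem_filter.2 ⟨hNA, hN2⟩⟩
  have hx := Finset.max'_mem _ hlow
  have hy := Finset.min'_mem _ hup
  set x := (A.filter (fun a => a ≤ n)).max' hlow with hxdef
  set y := (A.filter (fun a => n < a)).min' hup with hydef
  rw [Finset.mem_filter] at hx hy
  have hg := hgap x hx.1 y hy.1 (lt_of_le_of_lt hx.2 hy.2) (by
    rintro z hz ⟨hz1, hz2⟩
    by_cases hzt : z ≤ n
    · have h7 : z ≤ x := Finset.le_max' (A.filter (fun a => a ≤ n)) z
        (Finset.mem_filter.2 ⟨hz, hzt⟩)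
      omega
    · have h7 : y ≤ z := Finset.min'_le (A.filter (fun a => n < a)) z
        (Finset.mem_filter.2 ⟨hz, not_le.1 hzt⟩)
      omega)
  have hxn : x ≠ n := fun h => h1 (h ▸ hx.1)
  have hyn : y ≠ n + 1 := fun h => h2 (h ▸ hy.1)
  omega

/-- Let `A` be a finite set of positive integers with reciprocal sum `1` in which consecutive
elements differ by at most `2`, and let `N` be its largest element.
(1) There are no `m`, `n ≤ N` and primes `p ∣ n`, `q ∣ n + 1` with `p, q > m m!`, `N < m p`,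
`N < m q` and `n` at least the smallest element of `A`; here `2 min A ≤ N + 1`.
(2) There is no prime `q > 18` with `2 q + 1` prime and `2 q + 1 ≤ N < 3 q`.
(3) `N < 167` or `N ≥ 34586637`. -/
theorem result (A : Finset ℕ) (hA : ∀ a ∈ A, 0 < a)
    (hsum : (∑ n ∈ A, (1 : ℚ) / (n : ℚ)) = 1)
    (hgap : ∀ x ∈ A, ∀ y ∈ A, x < y → (∀ z ∈ A, ¬ (x < z ∧ z < y)) → y - x ≤ 2)
    (N : ℕ) (hNA : N ∈ A) (hN : ∀ a ∈ A, a ≤ N) :
    ((∃ a ∈ A, 2 * a ≤ N + 1) ∧
      ∀ m n p q : ℕ, p.Prime → q.Prime → m * m ! < p → m * m ! < q → N < m * p → N < m * q →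
        p ∣ n → q ∣ n + 1 → (∃ a ∈ A, a ≤ n) → ¬ n ≤ N) ∧
    (∀ q : ℕ, q.Prime → (2 * q + 1).Prime → 18 < q → ¬ (2 * q + 1 ≤ N ∧ N < 3 * q)) ∧
    (N < 167 ∨ 34586637 ≤ N) := by
  obtain ⟨a, haA, ha⟩ := two_min A hA hsum N hN
  have h : ∀ q : ℕ, q.Prime → (2 * q + 1).Prime → 18 < q → 2 * q + 1 ≤ N → ¬ N < 3 * q := by
    intro q hq hq2 h18 h1 h2
    refine no_pair A hA hsum hgap N hNA hN 3 (2 * q) q (2 * q + 1) hq hq2 ?_ ?_ h2 (by omega)
      (dvd_mul_left _ _) (dvd_refl _) ⟨a, haA, by omega⟩ (by omega)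
    · have : (3 : ℕ) * 3 ! = 18 := by decide
      omega
    · have : (3 : ℕ) * 3 ! = 18 := by decide
      omega
  refine ⟨⟨⟨a, haA, ha⟩, fun m n p q hp hq hpm hqm hNp hNq hpn hqn hn hnN =>
    no_pair A hA hsum hgap N hNA hN m n p q hp hq hpm hqm hNp hNq hpn hqn hn hnN⟩,
    fun q hq hq2 h18 hh => h q hq hq2 h18 hh.1 hh.2, ?_⟩
  by_cases hN167 : N < 167
  · exact Or.inl hN167
  right
  have s0 : 249 ≤ N := by
    by_contra hc
    exact h 83 (by norm_num) (by norm_num) (by norm_num) (by omega) (by omega)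
  have s1 : 339 ≤ N := by
    by_contra hc
    exact h 113 (by norm_num) (by norm_num) (by norm_num) (by omega) (by omega)
  have s2 : 393 ≤ N := by
    by_contra hc
    exact h 131 (by norm_num) (by norm_num) (by norm_num) (by omega) (by omega)
  have s3 : 573 ≤ N := by
    by_contra hc
    exact h 191 (by norm_num) (by norm_num) (by norm_num) (by omega) (by omega)
  have s4 : 843 ≤ N := by
    by_contra hc
    exact h 281 (by norm_num) (by norm_num) (by norm_num) (by omega) (by omega)
  have s5 : 1257 ≤ N := by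
    by_contra hc
    exact h 419 (by norm_num) (by norm_num) (by norm_num) (by omega) (by omega)
  have s6 : 1779 ≤ N := by
    by_contra hc
    exact h 593 (by norm_num) (by norm_num) (by norm_num) (by omega) (by omega)
  have s7 : 2427 ≤ N := by
    by_contra hc
    exact h 809 (by norm_num) (by norm_num) (by norm_num) (by omega) (by omega)
  have s8 : 3309 ≤ N := by
    by_contra hc
    exact h 1103 (by norm_num) (by norm_num) (by norm_num) (by omega) (by omega)
  have s9 : 4803 ≤ N := by
    by_contra hc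
    exact h 1601 (by norm_num) (by norm_num) (by norm_num) (by omega) (by omega)
  have s10 : 7197 ≤ N := by
    by_contra hc
    exact h 2399 (by norm_num) (by norm_num) (by norm_num) (by omega) (by omega)
  have s11 : 10779 ≤ N := by
    by_contra hc
    exact h 3593 (by norm_num) (by norm_num) (by norm_num) (by omega) (by omega)
  have s12 : 15999 ≤ N := by
    by_contra hc
    exact h 5333 (by norm_num) (by norm_num) (by norm_num) (by omega) (by omega)
  have s13 : 23703 ≤ N := by
    by_contra hc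
    exact h 7901 (by norm_num) (by norm_num) (by norm_num) (by omega) (by omega)
  have s14 : 35493 ≤ N := by
    by_contra hc
    exact h 11831 (by norm_num) (by norm_num) (by norm_num) (by omega) (by omega)
  have s15 : 53043 ≤ N := by
    by_contra hc
    exact h 17681 (by norm_num) (by norm_num) (by norm_num) (by omega) (by omega)
  have s16 : 79503 ≤ N := by
    by_contra hc
    exact h 26501 (by norm_num) (by norm_num) (by norm_num) (by omega) (by omega)
  have s17 : 118977 ≤ N := by
    by_contra hc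
    exact h 39659 (by norm_num) (by norm_num) (by norm_num) (by omega) (by omega)
  have s18 : 178359 ≤ N := by
    by_contra hc
    exact h 59453 (by norm_num) (by norm_num) (by norm_num) (by omega) (by omega)
  have s19 : 267459 ≤ N := by
    by_contra hc
    exact h 89153 (by norm_num) (by norm_num) (by norm_num) (by omega) (by omega)
  have s20 : 401127 ≤ N := by
    by_contra hc
    exact h 133709 (by norm_num) (by norm_num) (by norm_num) (by omega) (by omega)
  have s21 : 601053 ≤ N := by
    by_contra hc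
    exact h 200351 (by norm_num) (by norm_num) (by norm_num) (by omega) (by omega)
  have s22 : 901473 ≤ N := by
    by_contra hc
    exact h 300491 (by norm_num) (by norm_num) (by norm_num) (by omega) (by omega)
  have s23 : 1351599 ≤ N := by
    by_contra hc
    exact h 450533 (by norm_num) (by norm_num) (by norm_num) (by omega) (by omega)
  have s24 : 2026617 ≤ N := by
    by_contra hc
    exact h 675539 (by norm_num) (by norm_num) (by norm_num) (by omega) (by omega)
  have s25 : 3038487 ≤ N := by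
    by_contra hc
    exact h 1012829 (by norm_num) (by norm_num) (by norm_num) (by omega) (by omega)
  have s26 : 4555869 ≤ N := by
    by_contra hc
    exact h 1518623 (by norm_num) (by norm_num) (by norm_num) (by omega) (by omega)
  have s27 : 6833427 ≤ N := by
    by_contra hc
    exact h 2277809 (by norm_num) (by norm_num) (by norm_num) (by omega) (by omega)
  have s28 : 10248837 ≤ N := by
    by_contra hc
    exact h 3416279 (by norm_num) (by norm_num) (by norm_num) (by omega) (by omega)
  have s29 : 15372033 ≤ N := by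
    by_contra hc
    exact h 5124011 (by norm_num) (by norm_num) (by norm_num) (by omega) (by omega)
  have s30 : 23058033 ≤ N := by
    by_contra hc
    exact h 7686011 (by norm_num) (by norm_num) (by norm_num) (by omega) (by omega)
  have s31 : 34586637 ≤ N := by
    by_contra hc
    exact h 11528879 (by norm_num) (by norm_num) (by norm_num) (by omega) (by omega)
  exact s31

end Pool.Agent.Results.MP_1ea053_nt.SmallGaps
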